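import Pool.Agent.W262.SH.StmB

/-!
# Corestriction: the pure group theory
-/

set_option autoImplicit false

namespace Pool.Agent.W305.SH

open Pool.Agent.W262.SH

section

variable {G M : Type} [Group G] [AddCommGroup M] [DistribMulAction G M]

theorem mem_cos (H : Subgroup G) (σ : G) (q : G ⧸ H) : (σ • q).out⁻¹ * σ * q.out ∈ H := by
  rw [mul_assoc, ← QuotientGroup.eq, QuotientGroup.out_eq']
  have h : σ • q = σ • ((q.out : G) : G ⧸ H) := by rw [QuotientGroup.out_eq']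
  rw [h]
  rfl

theorem eps_out (H : Subgroup G) (ε : G →* ℤˣ) (hε : ∀ h ∈ H, ε h = 1) (σ : G) (q : G ⧸ H) :
    ε (σ • q).out = ε σ * ε q.out := by
  have h := hε _ (mem_cos H σ q)
  rw [map_mul, map_mul, map_inv, mul_assoc, inv_mul_eq_one] at h
  exact h

theorem sum_smul_q (H : Subgroup G) [Fintype (G ⧸ H)] (σ : G) (F : G ⧸ H → M) :
    ∑ q : G ⧸ H, F (σ • q) = ∑ q : G ⧸ H, F q :=
  Fintype.sum_equiv (MulAction.toPerm σ) _ _ fun _ => rfl

theorem cocyc (H : Subgroup G) [Fintype (G ⧸ H)] (f : G → M)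
    (hf : ∀ σ ∈ H, ∀ τ ∈ H, f (σ * τ) = f σ + σ • f τ) (ε : G →* ℤˣ) (hε : ∀ h ∈ H, ε h = 1)
    (σ τ : G) : cor H ε f (σ * τ) = cor H ε f σ + ((ε σ : ℤˣ) : ℤ) • (σ • cor H ε f τ) := by
  have e1 : cor H ε f σ = ∑ q : G ⧸ H, ((ε ((σ • (τ • q)).out) : ℤˣ) : ℤ) •
      ((σ • (τ • q)).out • f ((σ • (τ • q)).out⁻¹ * σ * (τ • q).out)) :=
    (sum_smul_q H τ (fun q => ((ε ((σ • q).out) : ℤˣ) : ℤ) •
      ((σ • q).out • f ((σ • q).out⁻¹ * σ * q.out)))).symm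
  have e2 : ((ε σ : ℤˣ) : ℤ) • (σ • cor H ε f τ) = ∑ q : G ⧸ H,
      ((ε ((σ • (τ • q)).out) : ℤˣ) : ℤ) •
        ((σ * (τ • q).out) • f ((τ • q).out⁻¹ * τ * q.out)) := by
    unfold cor
    rw [Finset.smul_sum, Finset.smul_sum]
    refine Finset.sum_congr rfl fun q _ => ?_
    rw [eps_out H ε hε σ (τ • q), Units.val_mul, mul_smul, mul_smul, smul_comm σ]
  rw [e2, e1, ← Finset.sum_add_distrib]
  unfold cor
  refine Finset.sum_congr rfl fun q _ => ?_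
  rw [mul_smul σ τ q]
  have e3 : (σ • τ • q).out⁻¹ * (σ * τ) * q.out =
      ((σ • τ • q).out⁻¹ * σ * (τ • q).out) * ((τ • q).out⁻¹ * τ * q.out) := by group
  rw [e3, hf _ (mem_cos H σ (τ • q)) _ (mem_cos H τ q), smul_add, smul_add]
  congr 2
  rw [← mul_smul]
  congr 1
  group

theorem cobd (H : Subgroup G) [Fintype (G ⧸ H)] (f : G → M) (ε : G →* ℤˣ)
    (hε : ∀ h ∈ H, ε h = 1) (P : M) (hP : ∀ h ∈ H, f h = h • P - P) (σ : G) :
    cor H ε f σ = ((ε σ : ℤˣ) : ℤ) • (σ • ∑ q : G ⧸ H, ((ε q.out : ℤˣ) : ℤ) • (q.out • P)) -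
      ∑ q : G ⧸ H, ((ε q.out : ℤˣ) : ℤ) • (q.out • P) := by
  rw [← sum_smul_q H σ (fun q => ((ε q.out : ℤˣ) : ℤ) • (q.out • P))]
  have e0 : ∀ q : G ⧸ H, ((ε ((σ • q).out) : ℤˣ) : ℤ) •
      ((σ • q).out • f ((σ • q).out⁻¹ * σ * q.out)) =
      ((ε σ : ℤˣ) : ℤ) • (σ • (((ε q.out : ℤˣ) : ℤ) • (q.out • P))) -
        ((ε ((σ • q).out) : ℤˣ) : ℤ) • ((σ • q).out • P) := by
    intro q
    rw [hP _ (mem_cos H σ q), smul_sub, smul_sub]
    congr 1
    rw [eps_out H ε hε σ q, Units.val_mul, mul_smul, ← mul_smul ((σ • q).out)]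
    rw [show (σ • q).out * ((σ • q).out⁻¹ * σ * q.out) = σ * q.out by group, mul_smul σ,
      smul_comm σ (((ε q.out : ℤˣ) : ℤ))]
  have e1 : (∑ q : G ⧸ H, ((ε q.out : ℤˣ) : ℤ) • (q.out • P)) =
      ∑ q : G ⧸ H, ((ε (σ • q).out : ℤˣ) : ℤ) • ((σ • q).out • P) :=
    (sum_smul_q H σ (fun q => ((ε q.out : ℤˣ) : ℤ) • (q.out • P))).symm
  unfold cor
  rw [Finset.sum_congr rfl fun q _ => e0 q, Finset.sum_sub_distrib]
  congr 1
  rw [← e1, Finset.smul_sum, Finset.smul_sum]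

theorem restr (H : Subgroup G) [Fintype (G ⧸ H)] (f : G → M)
    (hf : ∀ σ ∈ H, ∀ τ ∈ H, f (σ * τ) = f σ + σ • f τ) (hN : H.Normal) (I : Type) [Fintype I]
    (ε : I → G →* ℤˣ) (hε : ∀ i, ∀ h ∈ H, ε i h = 1)
    (hs : ∀ g, g ∉ H → ∑ i, ((ε i g : ℤˣ) : ℤ) = 0) :
    ∃ Q : M, ∀ σ ∈ H, ∑ i, cor H (ε i) f σ = (Fintype.card I) • f σ + (σ • Q - Q) := by
  classical
  set q0 : G ⧸ H := ((1 : G) : G ⧸ H) with hq0
  have hg0 : q0.out ∈ H := by
    have h : ((q0.out : G) : G ⧸ H) = ((1 : G) : G ⧸ H) := QuotientGroup.out_eq' q0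
    rw [eq_comm, QuotientGroup.eq] at h
    simpa using h
  refine ⟨(Fintype.card I) • f q0.out, fun σ hσ => ?_⟩
  have hfix : ∀ q : G ⧸ H, σ • q = q := by
    intro q
    induction q using QuotientGroup.induction_on with
    | _ g =>
      rw [MulAction.Quotient.smul_mk, QuotientGroup.eq]
      have h := hN.conj_mem σ⁻¹ (H.inv_mem hσ) g⁻¹
      simpa [mul_assoc] using h
  unfold cor
  rw [Finset.sum_comm]
  have e1 : ∀ q : G ⧸ H, (∑ i, ((ε i ((σ • q).out) : ℤˣ) : ℤ) •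
      ((σ • q).out • f ((σ • q).out⁻¹ * σ * q.out))) =
      if q = q0 then (Fintype.card I) • (q0.out • f (q0.out⁻¹ * σ * q0.out)) else 0 := by
    intro q
    rw [hfix q, ← Finset.sum_smul]
    split_ifs with h
    · subst h
      have h1 : ∀ i, ((ε i q0.out : ℤˣ) : ℤ) = 1 := by
        intro i
        rw [hε i _ hg0]
        rfl
      rw [Finset.sum_congr rfl fun i _ => h1 i, Finset.sum_const, Finset.card_univ, nsmul_eq_mul,
        mul_one, natCast_zsmul]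
    · rw [hs q.out, zero_smul]
      intro hq
      apply h
      have h2 : ((q.out : G) : G ⧸ H) = q := QuotientGroup.out_eq' q
      rw [← h2, hq0, eq_comm, QuotientGroup.eq]
      simpa using hq
  rw [Finset.sum_congr rfl fun q _ => e1 q, Finset.sum_ite_eq' Finset.univ q0,
    if_pos (Finset.mem_univ _)]
  have hc : q0.out⁻¹ * σ * q0.out ∈ H := H.mul_mem (H.mul_mem (H.inv_mem hg0) hσ) hg0
  have h3 := hf q0.out hg0 _ hc
  have h4 := hf σ hσ q0.out hg0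
  rw [show q0.out * (q0.out⁻¹ * σ * q0.out) = σ * q0.out by group, h4] at h3
  have h5 : q0.out • f (q0.out⁻¹ * σ * q0.out) = f σ + (σ • f q0.out - f q0.out) := by
    rw [eq_comm, ← add_sub_assoc, sub_eq_iff_eq_add, h3, add_comm]
  rw [h5, smul_add, smul_sub, smul_comm σ]

theorem loc (H : Subgroup G) [Fintype (G ⧸ H)] (f : G → M)
    (hf : ∀ σ ∈ H, ∀ τ ∈ H, f (σ * τ) = f σ + σ • f τ) (Δ M' : Type) [Group Δ] [AddCommGroup M']
    [DistribMulAction Δ M'] (a : Δ →* G) (ι : M →+ M') (hι : ∀ δ m, ι (a δ • m) = δ • ι m)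
    (hl : ∀ g : G, ∃ P : M', ∀ δ : Δ, ∀ h ∈ H, a δ * g = g * h → ι (g • f h) = δ • P - P)
    (ε : G →* ℤˣ) (hε : ∀ h ∈ H, ε h = 1) :
    ∃ P : M', ∀ δ : Δ, ι (cor H ε f (a δ)) = ((ε (a δ) : ℤˣ) : ℤ) • (δ • P) - P := by
  classical
  -- orbit representatives
  obtain ⟨r, hr1, hr2⟩ : ∃ r : G ⧸ H → G ⧸ H, (∀ q, ∃ δ : Δ, a δ • r q = q) ∧
      ∀ (δ : Δ) (q), r (a δ • q) = r q := by
    let _ : MulAction Δ (G ⧸ H) := MulAction.compHom (G ⧸ H) a
    refine ⟨fun q => (Quotient.mk (MulAction.orbitRel Δ (G ⧸ H)) q).out, fun q => ?_,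
      fun δ q => ?_⟩
    · have h : (MulAction.orbitRel Δ (G ⧸ H)).r
          (Quotient.mk (MulAction.orbitRel Δ (G ⧸ H)) q).out q :=
        Quotient.exact (Quotient.out_eq _)
      have h' := (MulAction.orbitRel Δ (G ⧸ H)).symm h
      obtain ⟨δ, hδ⟩ := (MulAction.orbitRel_apply.1 h')
      exact ⟨δ, hδ⟩
    · have h : Quotient.mk (MulAction.orbitRel Δ (G ⧸ H)) (a δ • q) =
          Quotient.mk (MulAction.orbitRel Δ (G ⧸ H)) q := by
        apply Quotient.sound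
        apply MulAction.orbitRel_apply.2
        exact ⟨δ, rfl⟩
      simp only [h]
  choose d hd using hr1
  choose PP hPP using hl
  -- the correcting elements
  have hh : ∀ q : G ⧸ H, q.out⁻¹ * a (d q) * (r q).out ∈ H := by
    intro q
    have h := mem_cos H (a (d q)) (r q)
    rw [hd q] at h
    exact h
  set hq : G ⧸ H → G := fun q => q.out⁻¹ * a (d q) * (r q).out with hhq
  set R : G ⧸ H → M' := fun q => d q • PP (r q).out - ι (q.out • f (hq q)) with hR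
  have claim : ∀ (δ : Δ) (q : G ⧸ H),
      ι ((a δ • q).out • f ((a δ • q).out⁻¹ * a δ * q.out)) = δ • R q - R (a δ • q) := by
    intro δ q
    set q' := a δ • q with hq'
    have hrr : r q' = r q := hr2 δ q
    set h := q'.out⁻¹ * a δ * q.out with hdef
    have hH : h ∈ H := mem_cos H (a δ) q
    have h1 : hq q ∈ H := hh q
    have h2 : hq q' ∈ H := hh q'
    have hk : (hq q')⁻¹ * h * hq q ∈ H := H.mul_mem (H.mul_mem (H.inv_mem h2) hH) h1
    have e1 := hPP (r q).out ((d q')⁻¹ * δ * d q) _ hk (by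
      rw [map_mul, map_mul, map_inv, hdef]
      simp only [hhq]
      rw [hrr]
      group)
    have e2 := congrArg (fun m => d q' • m) e1
    rw [smul_sub, ← mul_smul, ← hι, ← mul_smul,
      show d q' * ((d q')⁻¹ * δ * d q) = δ * d q by group] at e2
    have e3 : a (d q') * (r q).out = q'.out * hq q' := by
      simp only [hhq]
      rw [hrr]
      group
    have e4 := hf _ h2 _ hk
    rw [show hq q' * ((hq q')⁻¹ * h * hq q) = h * hq q by group] at e4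
    have e5 := hf _ hH _ h1
    rw [e3, mul_smul q'.out, eq_sub_of_add_eq' e4.symm, smul_sub, map_sub] at e2
    simp only [hR]
    rw [smul_sub, ← hι, ← mul_smul (a δ), ← mul_smul δ, hrr]
    have e6 : a δ * q.out = q'.out * h := by rw [hdef]; group
    rw [e6, mul_smul q'.out, eq_sub_of_add_eq' e5.symm, smul_sub, map_sub]
    rw [sub_sub_sub_comm, ← e2]
    abel
  refine ⟨∑ q : G ⧸ H, ((ε q.out : ℤˣ) : ℤ) • R q, fun δ => ?_⟩
  unfold cor
  rw [map_sum]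
  have e0 : ∀ q : G ⧸ H, ι (((ε ((a δ • q).out) : ℤˣ) : ℤ) •
      ((a δ • q).out • f ((a δ • q).out⁻¹ * a δ * q.out))) =
      ((ε (a δ) : ℤˣ) : ℤ) • (δ • (((ε q.out : ℤˣ) : ℤ) • R q)) -
        ((ε ((a δ • q).out) : ℤˣ) : ℤ) • R (a δ • q) := by
    intro q
    rw [map_zsmul, claim δ q, smul_sub]
    congr 1
    rw [eps_out H ε hε (a δ) q, Units.val_mul, mul_smul, smul_comm δ]
  rw [Finset.sum_congr rfl fun q _ => e0 q, Finset.sum_sub_distrib]
  congr 1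
  · rw [Finset.smul_sum, Finset.smul_sum]
  · exact Fintype.sum_equiv (MulAction.toPerm (a δ)) _ _ fun _ => rfl

end

theorem absc : ABSC := by
  intro G M _ _ _ H _ f hf
  refine ⟨fun ε hε σ τ => cocyc H f hf ε hε σ τ, fun ε hε hP => ?_, fun hN I _ ε hε hs => ?_,
    fun Δ M' _ _ _ a ι hι hl ε hε => ?_⟩
  · obtain ⟨P, hP⟩ := hP
    exact ⟨_, cobd H f ε hε P hP⟩
  · exact restr H f hf hN I ε hε hs
  · exact loc H f hf Δ M' a ι hι hl ε hε

end Pool.Agent.W305.SH
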